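import Pool.Agent.E8helper15.FT.Stm2

/-!
# Project FT (MP_c59389_nt), piece TOR: the torsion points of `y² = x (x + u⁴) (x + v⁴)`, `u² + v² = w²`
-/

set_option autoImplicit false

namespace Pool.Agent.E8helper70.FT

open WeierstrassCurve Pool.Agent.E8helper15.FT

/-- the curve `y² = x³ + a x² + b x` -/
abbrev W (a b : ℚ) : WeierstrassCurve ℚ := ⟨0, a, 0, b, 0⟩

lemma ns_of {a b x y : ℚ} (h : y ^ 2 = x ^ 3 + a * x ^ 2 + b * x) (h2 : y ≠ 0 ∨ 3 * x ^ 2 + 2 * a * x + b ≠ 0) :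
    (W a b).toAffine.Nonsingular x y := by
  rw [Affine.nonsingular_iff, Affine.equation_iff]
  refine ⟨by linarith, ?_⟩
  rcases h2 with h2 | h2
  · right
    intro h3
    apply h2
    linarith
  · left
    intro h3
    apply h2
    linarith

lemma dbl {a b x y X Y L : ℚ} (h₁ : (W a b).toAffine.Nonsingular x y) (h₂ : (W a b).toAffine.Nonsingular X Y)
    (hy : y ≠ 0) (hL : L * (2 * y) = 3 * x ^ 2 + 2 * a * x + b) (hX : X = L ^ 2 - a - 2 * x)
    (hY : Y = -(L * (X - x) + y)) : Affine.Point.some x y h₁ + Affine.Point.some x y h₁ = Affine.Point.some X Y h₂ := by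
  have hneg : y ≠ (W a b).toAffine.negY x y := by
    simp only [Affine.negY]
    intro h
    apply hy
    linarith
  have hs : (W a b).toAffine.slope x x y y = L := by
    rw [Affine.slope_of_Y_ne rfl hneg]
    simp only [Affine.negY]
    have h2 : y - (-y - 0 * x - 0) ≠ 0 := by
      intro h
      apply hy
      linarith
    rw [div_eq_iff h2]
    linarith
  rw [Affine.Point.add_self_of_Y_ne hneg]
  simp only [Affine.Point.some.injEq, Affine.addX, Affine.addY, Affine.negAddY, Affine.negY, hs]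
  constructor
  · rw [hX]; ring
  · rw [hY, hX]; ring

theorem t_TOR : S_TOR := by
  intro u v w hu hv huv h
  have huw : w ≠ 0 := by
    intro hw
    have : u ^ 2 + v ^ 2 = 0 := by rw [h, hw]; ring
    have h1 : 0 < u ^ 2 := by positivity
    have h2 : 0 < v ^ 2 := by positivity
    linarith
  have h4 : u ^ 4 - v ^ 4 ≠ 0 := by
    have e : u ^ 4 - v ^ 4 = (u ^ 2 - v ^ 2) * (u ^ 2 + v ^ 2) := by ring
    rw [e, h]
    exact mul_ne_zero (sub_ne_zero.2 huv) (pow_ne_zero 2 huw)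
  have hs1 : u + v ≠ 0 := by
    intro h0
    apply huv
    have : u = -v := by linarith
    rw [this]; ring
  have hs2 : v + w ≠ 0 := by
    intro h0
    have e : w = -v := by linarith
    rw [e] at h
    have : u ^ 2 = 0 := by linarith
    exact hu (pow_eq_zero_iff (by norm_num) |>.1 this)
  have hs3 : w + u ≠ 0 := by
    intro h0
    have e : w = -u := by linarith
    rw [e] at h
    have : v ^ 2 = 0 := by linarith
    exact hv (pow_eq_zero_iff (by norm_num) |>.1 this)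
  obtain ⟨a, ha⟩ : ∃ a, a = u ^ 4 + v ^ 4 := ⟨_, rfl⟩
  obtain ⟨b, hb⟩ : ∃ b, b = u ^ 4 * v ^ 4 := ⟨_, rfl⟩
  rw [← ha, ← hb]
  change BigTorsion (W a b)
  -- the points
  have nP : (W a b).toAffine.Nonsingular (u * v * (u + w) * (v + w)) (u * v * w * (u + v) * (v + w) * (w + u)) := by
    apply ns_of
    · rw [ha, hb]
      linear_combination (- u ^ 6 * v ^ 4 - 2 * u ^ 6 * v ^ 3 * w - u ^ 6 * v ^ 2 * w ^ 2 - 2 * u ^ 5 * v ^ 4 * w - 4 * u ^ 5 * v ^ 3 * w ^ 2 - 2 * u ^ 5 * v ^ 2 * w ^ 3 - u ^ 4 * v ^ 6 - 2 * u ^ 4 * v ^ 5 * w - 3 * u ^ 4 * v ^ 4 * w ^ 2 - 3 * u ^ 4 * v ^ 3 * w ^ 3 - u ^ 4 * v ^ 2 * w ^ 4 - 2 * u ^ 3 * v ^ 6 * w - 4 * u ^ 3 * v ^ 5 * w ^ 2 - 3 * u ^ 3 * v ^ 4 * w ^ 3 - u ^ 3 * v ^ 3 * w ^ 4 - u ^ 2 * v ^ 6 * w ^ 2 - 2 * u ^ 2 * v ^ 5 * w ^ 3 - u ^ 2 * v ^ 4 * w ^ 4) * h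
    · left
      exact mul_ne_zero (mul_ne_zero (mul_ne_zero (mul_ne_zero (mul_ne_zero hu hv) huw) hs1) hs2) hs3
  have nQ : (W a b).toAffine.Nonsingular (u ^ 2 * v ^ 2) (u ^ 2 * v ^ 2 * w ^ 2) := by
    apply ns_of
    · rw [ha, hb]
      linear_combination (- u ^ 6 * v ^ 4 - u ^ 4 * v ^ 6 - u ^ 4 * v ^ 4 * w ^ 2) * h
    · left
      positivity
  have nD : (W a b).toAffine.Nonsingular 0 0 := by
    apply ns_of
    · ring
    · right
      rw [hb]
      have : u ^ 4 * v ^ 4 ≠ 0 := by positivity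
      intro h0
      apply this
      linarith
  have nT : (W a b).toAffine.Nonsingular (-u ^ 4) 0 := by
    apply ns_of
    · rw [ha, hb]; ring
    · right
      rw [ha, hb]
      have e : 3 * (-u ^ 4) ^ 2 + 2 * (u ^ 4 + v ^ 4) * (-u ^ 4) + u ^ 4 * v ^ 4 = u ^ 4 * (u ^ 4 - v ^ 4) := by ring
      rw [e]
      exact mul_ne_zero (pow_ne_zero 4 hu) h4
  have dP : Affine.Point.some _ _ nP + Affine.Point.some _ _ nP = Affine.Point.some _ _ nQ := by
    apply dbl nP nQ (L := u * v + v * w + w * u)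
    · exact mul_ne_zero (mul_ne_zero (mul_ne_zero (mul_ne_zero (mul_ne_zero hu hv) huw) hs1) hs2) hs3
    · rw [ha, hb]
      linear_combination (- 2 * u ^ 4 * v ^ 2 - 2 * u ^ 4 * v * w - 2 * u ^ 3 * v ^ 2 * w - 2 * u ^ 3 * v * w ^ 2 - 2 * u ^ 2 * v ^ 4 - 2 * u ^ 2 * v ^ 3 * w - u ^ 2 * v ^ 2 * w ^ 2 - 2 * u * v ^ 4 * w - 2 * u * v ^ 3 * w ^ 2) * h
    · rw [ha]
      linear_combination (u ^ 2 + v ^ 2) * h
    · ring
  have dQ : Affine.Point.some _ _ nQ + Affine.Point.some _ _ nQ = Affine.Point.some _ _ nD := by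
    apply dbl nQ nD (L := w ^ 2)
    · positivity
    · rw [ha, hb]
      linear_combination (- 2 * u ^ 4 * v ^ 2 - 2 * u ^ 2 * v ^ 4 - 2 * u ^ 2 * v ^ 2 * w ^ 2) * h
    · rw [ha]
      linear_combination (u ^ 2 + v ^ 2 + w ^ 2) * h
    · ring
  have dD : Affine.Point.some _ _ nD + Affine.Point.some _ _ nD = 0 := by
    apply Affine.Point.add_self_of_Y_eq
    simp [Affine.negY]
  have dT : Affine.Point.some _ _ nT + Affine.Point.some _ _ nT = 0 := by
    apply Affine.Point.add_self_of_Y_eq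
    simp [Affine.negY]
  have hD0 : Affine.Point.some _ _ nD ≠ 0 := Affine.Point.some_ne_zero nD
  have hT0 : Affine.Point.some _ _ nT ≠ 0 := Affine.Point.some_ne_zero nT
  have hTD : Affine.Point.some _ _ nT ≠ Affine.Point.some _ _ nD := by
    intro h0
    rw [Affine.Point.some.injEq] at h0
    have : u ^ 4 = 0 := by linarith [h0.1]
    exact hu (pow_eq_zero_iff (by norm_num) |>.1 this)
  have e4 : (2 ^ 2) • Affine.Point.some _ _ nP = Affine.Point.some _ _ nD := by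
    rw [pow_two, mul_smul, two_nsmul, two_nsmul, dP, dQ]
  have e8 : (2 ^ (2 + 1)) • Affine.Point.some _ _ nP = 0 := by
    rw [pow_succ, mul_comm, mul_smul, e4, two_nsmul, dD]
  have : Fact (Nat.Prime 2) := ⟨Nat.prime_two⟩
  have oP : addOrderOf (Affine.Point.some _ _ nP) = 8 :=
    addOrderOf_eq_prime_pow (p := 2) (n := 2) (by rw [e4]; exact hD0) e8
  have oT : addOrderOf (Affine.Point.some _ _ nT) = 2 :=
    addOrderOf_eq_prime (by rw [two_nsmul, dT]) hT0
  refine ⟨Affine.Point.some _ _ nP, Affine.Point.some _ _ nT, oP, oT, ?_⟩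
  intro hmem
  obtain ⟨n, hn⟩ := AddSubgroup.mem_zmultiples_iff.1 hmem
  have h2n : (2 * n) • Affine.Point.some _ _ nP = 0 := by
    rw [mul_smul, hn, two_zsmul, dT]
  rw [← addOrderOf_dvd_iff_zsmul_eq_zero, oP] at h2n
  obtain ⟨k, hk⟩ := h2n
  have hn4 : n = k * 4 := by push_cast at hk; omega
  have e4' : (4 : ℤ) • Affine.Point.some _ _ nP = Affine.Point.some _ _ nD := by
    rw [← e4, ← natCast_zsmul]
    norm_num
  rw [hn4, mul_smul, e4'] at hn
  rcases Int.even_or_odd' k with ⟨j, hj | hj⟩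
  · rw [hj, mul_comm, mul_smul, two_zsmul, dD, zsmul_zero] at hn
    exact hT0 hn.symm
  · rw [hj, add_zsmul, one_zsmul, mul_comm, mul_smul, two_zsmul, dD, zsmul_zero, zero_add] at hn
    exact hTD hn.symm

end Pool.Agent.E8helper70.FT
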